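import Pool.Agent.helper70.NZ.SpecA
import Pool.Agent.helper37.NE.SpecA

/-!
# Row nz:YGK (MP_baa4d7_al, project NZ): rows and counts for the type `G` (port of helper27/NE/YGK.lean)
-/

set_option autoImplicit false

namespace Pool.Agent.ND.NY.E

open Pool.Agent.helper58.DC Pool.Agent.DI Pool.Agent.GR Pool.Agent.OB Pool.Agent.DR Pool.Agent.FI Pool.Agent.FI3 Pool.Agent.FI4 Pool.Agent.FI4I Pool.Agent.LE Pool.Agent.L5 Pool.Agent.NAB Pool.Agent.NE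
open Pool.Agent.ZB (Pm Om KZ EQ BQ lQ MZc BDK)

theorem YGK_ncard {G : Type} {S : Set (G → ℂ)} (Q : (G → ℂ) → Prop) :
    Nat.card {ψ : {ψ : G → ℂ // ψ ∈ S} // Q (ψ : G → ℂ)} = {ψ : G → ℂ | ψ ∈ S ∧ Q ψ}.ncard := by
  rw [← Nat.card_coe_set_eq]
  exact Nat.card_congr (Equiv.subtypeSubtypeEquivSubtypeInter (fun ψ : G → ℂ => ψ ∈ S) Q)

open Classical in
theorem YGK_ind {G : Type} [Group G] {p e : ℕ} {m : Pm} {M : Ideal (integralClosure ℤ ℂ)} {χ : G → ℂ} {Z : Subgroup G}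
    {act : nz Z → XX p e m M χ Z → XX p e m M χ Z} (hact : ∀ a θ, (act a θ : G → ℂ) = cjF (a : G) (θ : G → ℂ))
    (x₀ x : XX p e m M χ Z) :
    (((if ∃ t, act t x₀ = x then (1 : ℤ) else 0 : ℤ)) : ℂ) = iH ⊤ Z (x₀ : G → ℂ) (x : G → ℂ) := by
  unfold iH
  by_cases h : ∃ t, act t x₀ = x
  · have h' : ∃ h ∈ (⊤ : Subgroup G) ⊓ nz Z, cjF h (x₀ : G → ℂ) = (x : G → ℂ) := by
      obtain ⟨t, ht⟩ := h
      refine ⟨(t : G), ⟨Subgroup.mem_top _, t.2⟩, ?_⟩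
      rw [← hact, ht]
    rw [if_pos h, if_pos h']
    norm_num
  · have h' : ¬ ∃ h ∈ (⊤ : Subgroup G) ⊓ nz Z, cjF h (x₀ : G → ℂ) = (x : G → ℂ) := by
      rintro ⟨g, hg, hg2⟩
      refine h ⟨⟨g, hg.2⟩, Subtype.ext ?_⟩
      rw [hact]
      exact hg2
    rw [if_neg h, if_neg h']
    norm_num

theorem YGK (hYKC : Pool.Agent.NE.YKC_stmt) (hYUE : YUE_stmt) (hGAC : GAC_stmt) (hGSY : GSY_stmt) (hGNV : GNV_stmt) (hGQQ : GQQ_stmt)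
    (hGKE : GKE_stmt) (hNUD : NUD_stmt) (hYE1 : YE1_stmt) (hGST : GST_stmt) (hTPR : Pool.Agent.FI.TPR_stmt) (hB2 : B2_stmt) : YGK_stmt := by
  classical
  intro p e m t M hM G _ _ χ Z z₁ x₁ hZD₁ hem
  have fin : ∀ K : Subgroup G, (IrrOn K).Finite := fun K => (hB2 G K).1
  obtain ⟨z, x, hZD, hEE, hUT', hUN', hGT, hGN, hcent, hcc, hcN⟩ := hYUE p e m t M hM G χ Z z₁ x₁ hZD₁
  have hχ : χ ∈ Irr G := by
    rw [← (hTPR p M hM G).1]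
    exact hZD.ch
  obtain ⟨Dg, yg, hDg, hzD, hzc, hKY⟩ := (hNUD p e m M hM G ⊤ χ hZD.ch z x hZD.uc).2
  obtain ⟨hKZ, -, -, -, -, hEQ, -⟩ := (hYE1 p hM.pr m G Dg).1 e hKY
  have hcard := hGKE p m M hM G χ hχ Dg yg hDg hKZ (fun N => hem.2.2 N)
  rw [← hEQ z hzD hZD.uc.od] at hcard
  rw [← hEE] at hUN' hGN hcN ⊢
  have finX : Finite (XX p e m M χ Z) := ((fin _).subset fun θ hθ => hθ.1).to_subtype
  have finP : ∀ L : Subgroup G, Finite (PP p e m M χ L Z) := fun L =>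
    ((fin L).subset fun θ hθ => hθ.1).to_subtype
  obtain ⟨act, hact, hAcn, -⟩ := hGAC p e m t M hM G χ Z z x hZD (nz Z) le_rfl hcc
  obtain ⟨Φ, hK⟩ := hYKC (XX p e m M χ Z) (nz Z) ((cz Z).subgroupOf (nz Z)) act
    (fun θ θ' => orb Z t (θ : G → ℂ) (θ' : G → ℂ)) (p - 1) hAcn
  have main : ∀ L : Subgroup G, cz Z ≤ L → nz Z ≤ L → (∀ ψ ∈ GS p e m M χ L Z, Ucl p e m M L ψ z x) →
      ∃ (w : PP p e m M χ L Z → ℤ) (D : PP p e m M χ L Z → XX p e m M χ Z → XX p e m M χ Z → ℤ),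
        (∀ ψ θ θ', ((D ψ θ θ' : ℤ) : ℂ) = if orb Z t (θ : G → ℂ) (θ' : G → ℂ) then mt (cz Z) (ψ : G → ℂ) (θ : G → ℂ) - mt (cz Z) (ψ : G → ℂ) (θ' : G → ℂ) else 0) ∧
        Sys ((cz Z).subgroupOf (nz Z)) act (fun θ θ' => orb Z t (θ : G → ℂ) (θ' : G → ℂ)) w D ∧
        (∀ ψ, ∃ a b, D ψ a b ≠ 0) := by
    intro L hcL hnL hUL
    obtain ⟨w, D, hD, hS⟩ := hGSY p e m t M hM G χ Z z x hZD L (nz Z) hcL (inf_eq_left.2 hnL).symm act hact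
    refine ⟨w, D, hD, hS, ?_⟩
    intro ψ
    obtain ⟨θ, hθ, θ', hθ', ho, hne⟩ := hGNV p e m t M hM G χ Z z x hZD L hcL ψ.1 ψ.2 (hUL ψ.1 ψ.2)
    refine ⟨⟨θ, hθ⟩, ⟨θ', hθ'⟩, fun h0 => hne ?_⟩
    have h5 := hD ψ ⟨θ, hθ⟩ ⟨θ', hθ'⟩
    rw [h0, if_pos ho, Int.cast_zero] at h5
    exact sub_eq_zero.1 h5.symm
  obtain ⟨w₁, D₁, c1, c2, c3⟩ := main (nz (Eg p e z)) (hcc.trans hcN) hcN hUN'
  obtain ⟨w₂, D₂, d1, d2, d3⟩ := main (⊤ : Subgroup G) le_top le_top hUT'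
  have hcN1 : Nat.card (PP p e m M χ (nz (Eg p e z)) Z) = Φ := by
    obtain ⟨-, k1, -⟩ := @hK (PP p e m M χ (nz (Eg p e z)) Z) (finP _) w₁ D₁ c2 c3
    refine k1 ?_ ?_
    · intro ψ a b
      by_cases ho : orb Z t (a : G → ℂ) (b : G → ℂ)
      · have h5 := c1 ψ a b
        rw [if_pos ho] at h5
        have h6 := (hGQQ p e m t M hM G χ Z z x hZD ψ.1 ψ.2 a.1 a.2 b.1 b.2 ho).1
        rw [← h5] at h6
        rcases h6 with h6 | h6 | h6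
        · have h7 : D₁ ψ a b = 0 := by exact_mod_cast h6
          rw [h7]
          norm_num
        · have h7 : D₁ ψ a b = 1 := by exact_mod_cast h6
          rw [h7]
          norm_num
        · have h7 : D₁ ψ a b = -1 := by exact_mod_cast h6
          rw [h7]
          norm_num
      · rw [c2.nr ψ a b ho]
        norm_num
    · intro ψ a b a' b' hne hne'
      have ho : orb Z t (a : G → ℂ) (b : G → ℂ) := by
        by_contra ho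
        exact hne (c2.nr ψ a b ho)
      have ho' : orb Z t (a' : G → ℂ) (b' : G → ℂ) := by
        by_contra ho'
        exact hne' (c2.nr ψ a' b' ho')
      have h5 := c1 ψ a b
      have h5' := c1 ψ a' b'
      rw [if_pos ho] at h5
      rw [if_pos ho'] at h5'
      obtain ⟨h, hh, h6⟩ := (hGQQ p e m t M hM G χ Z z x hZD ψ.1 ψ.2 a.1 a.2 b.1 b.2 ho).2 a'.1 a'.2 b'.1 b'.2 ho'
        (fun h0 => hne (by
          have h7 : ((D₁ ψ a b : ℤ) : ℂ) = 0 := by rw [h5, h0, sub_self]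
          exact_mod_cast h7))
        (fun h0 => hne' (by
          have h7 : ((D₁ ψ a' b' : ℤ) : ℂ) = 0 := by rw [h5', h0, sub_self]
          exact_mod_cast h7))
      refine ⟨⟨h, hh⟩, ?_⟩
      show orb Z t (act ⟨h, hh⟩ a : G → ℂ) (a' : G → ℂ)
      rw [hact]
      exact h6
  have hcT : Nat.card (PP p e m M χ (⊤ : Subgroup G) Z) = Φ := by
    rw [← hcN1]
    have h5 : Nat.card (PP p e m M χ (⊤ : Subgroup G) Z) = (GS p e m M χ (⊤ : Subgroup G) Z).ncard :=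
      Nat.card_coe_set_eq _
    have h6 : Nat.card (PP p e m M χ (nz (Eg p e z)) Z) = (GS p e m M χ (nz (Eg p e z)) Z).ncard :=
      Nat.card_coe_set_eq _
    rw [h5, h6, hGT, hGN]
    exact hcard
  -- the translation
  have concl : ∀ (L : Subgroup G) (w : PP p e m M χ L Z → ℤ) (D : PP p e m M χ L Z → XX p e m M χ Z → XX p e m M χ Z → ℤ),
      (∀ ψ θ θ', ((D ψ θ θ' : ℤ) : ℂ) = if orb Z t (θ : G → ℂ) (θ' : G → ℂ) then mt (cz Z) (ψ : G → ℂ) (θ : G → ℂ) - mt (cz Z) (ψ : G → ℂ) (θ' : G → ℂ) else 0) →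
      Sys ((cz Z).subgroupOf (nz Z)) act (fun θ θ' => orb Z t (θ : G → ℂ) (θ' : G → ℂ)) w D →
      (∀ ψ, ∃ a b, D ψ a b ≠ 0) → Nat.card (PP p e m M χ L Z) = Φ →
      (∀ ψ ∈ GS p e m M χ L Z, ∃ θ₀ ∈ GS p e m M χ (cz Z) Z, ∃ ε : ℂ, (ε = 1 ∨ ε = -1) ∧ ∀ θ ∈ GS p e m M χ (cz Z) Z, ∀ ν : Z →* ℂˣ,
        mt (cz Z) ψ θ - mt (cz Z) ψ (st Z t ν θ) = ε * (iH ⊤ Z θ₀ θ - iH ⊤ Z θ₀ (st Z t ν θ))) ∧
      ∀ θ₀ ∈ GS p e m M χ (cz Z) Z, Nat.card (cz Z : Subgroup G) *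
        {ψ : G → ℂ | ψ ∈ GS p e m M χ L Z ∧ ∃ ε : ℂ, (ε = 1 ∨ ε = -1) ∧ ∀ θ ∈ GS p e m M χ (cz Z) Z, ∀ ν : Z →* ℂˣ,
          mt (cz Z) ψ θ - mt (cz Z) ψ (st Z t ν θ) = ε * (iH ⊤ Z θ₀ θ - iH ⊤ Z θ₀ (st Z t ν θ))}.ncard = Nat.card {h : G // h ∈ nz Z ∧ cjF h θ₀ = θ₀} := by
    intro L w D hD hS hne hΦ
    obtain ⟨-, -, k3⟩ := @hK (PP p e m M χ L Z) (finP _) w D hS hne
    obtain ⟨k4, k5⟩ := k3 hΦ
    have hRO : ∀ (ψ : PP p e m M χ L Z) (x₀ : XX p e m M χ Z), RO act (fun θ θ' => orb Z t (θ : G → ℂ) (θ' : G → ℂ)) (D ψ) x₀ ↔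
        ∃ ε : ℂ, (ε = 1 ∨ ε = -1) ∧ ∀ θ ∈ GS p e m M χ (cz Z) Z, ∀ ν : Z →* ℂˣ,
          mt (cz Z) (ψ : G → ℂ) θ - mt (cz Z) (ψ : G → ℂ) (st Z t ν θ) = ε * (iH ⊤ Z (x₀ : G → ℂ) θ - iH ⊤ Z (x₀ : G → ℂ) (st Z t ν θ)) := by
      intro ψ x₀
      constructor
      · rintro ⟨ε, hε, h⟩
        refine ⟨(ε : ℂ), ?_, ?_⟩
        · rcases hε with hε | hε
          · left
            rw [hε]
            norm_num
          · right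
            rw [hε]
            norm_num
        · intro θ hθ ν
          have hθ' := (hGST p e m t M hM G χ Z z x hZD θ hθ ν).1
          have h5 := hD ψ ⟨θ, hθ⟩ ⟨st Z t ν θ, hθ'⟩
          rw [if_pos ⟨ν, rfl⟩] at h5
          have h6 := h ⟨θ, hθ⟩ ⟨st Z t ν θ, hθ'⟩ ⟨ν, rfl⟩
          rw [← YGK_ind hact x₀ ⟨θ, hθ⟩, ← YGK_ind hact x₀ ⟨st Z t ν θ, hθ'⟩]
          show mt (cz Z) (ψ : G → ℂ) θ - mt (cz Z) (ψ : G → ℂ) (st Z t ν θ) = _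
          rw [← h5, h6]
          push_cast
          ring
      · rintro ⟨ε, hε, h⟩
        obtain ⟨ε', hε', hεε⟩ : ∃ ε' : ℤ, (ε' = 1 ∨ ε' = -1) ∧ (ε' : ℂ) = ε := by
          rcases hε with hε | hε
          · exact ⟨1, Or.inl rfl, by rw [hε]; norm_num⟩
          · exact ⟨-1, Or.inr rfl, by rw [hε]; norm_num⟩
        refine ⟨ε', hε', ?_⟩
        rintro ⟨a, ha⟩ ⟨b, hb⟩ ⟨ν, hν⟩
        subst hν
        have h5 := hD ψ ⟨a, ha⟩ ⟨st Z t ν a, hb⟩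
        rw [if_pos ⟨ν, rfl⟩] at h5
        have h6 := h a ha ν
        have h7 : ((D ψ ⟨a, ha⟩ ⟨st Z t ν a, hb⟩ : ℤ) : ℂ) =
            ((ε' * ((if ∃ t, act t x₀ = ⟨a, ha⟩ then (1 : ℤ) else 0) - (if ∃ t_1, act t_1 x₀ = ⟨st Z t ν a, hb⟩ then 1 else 0)) : ℤ) : ℂ) := by
          rw [h5]
          refine h6.trans ?_
          rw [Int.cast_mul, Int.cast_sub, YGK_ind hact x₀ ⟨a, ha⟩, YGK_ind hact x₀ ⟨st Z t ν a, hb⟩, hεε]
        exact_mod_cast h7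
    constructor
    · intro ψ hψ
      obtain ⟨x₀, hx₀⟩ := k4 ⟨ψ, hψ⟩
      exact ⟨x₀.1, x₀.2, (hRO ⟨ψ, hψ⟩ x₀).1 hx₀⟩
    · intro θ₀ hθ₀
      have h5 := k5 ⟨θ₀, hθ₀⟩
      have h6 : Nat.card ((cz Z).subgroupOf (nz Z)) = Nat.card (cz Z : Subgroup G) :=
        Nat.card_congr (Subgroup.subgroupOfEquivOfLe hcc).toEquiv
      have h7 : Nat.card {ψ : PP p e m M χ L Z // RO act (fun θ θ' => orb Z t (θ : G → ℂ) (θ' : G → ℂ)) (D ψ) ⟨θ₀, hθ₀⟩} =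
          {ψ : G → ℂ | ψ ∈ GS p e m M χ L Z ∧ ∃ ε : ℂ, (ε = 1 ∨ ε = -1) ∧ ∀ θ ∈ GS p e m M χ (cz Z) Z, ∀ ν : Z →* ℂˣ,
          mt (cz Z) ψ θ - mt (cz Z) ψ (st Z t ν θ) = ε * (iH ⊤ Z θ₀ θ - iH ⊤ Z θ₀ (st Z t ν θ))}.ncard := by
        rw [← YGK_ncard (S := GS p e m M χ L Z) (fun ψ => ∃ ε : ℂ, (ε = 1 ∨ ε = -1) ∧ ∀ θ ∈ GS p e m M χ (cz Z) Z, ∀ ν : Z →* ℂˣ,
          mt (cz Z) ψ θ - mt (cz Z) ψ (st Z t ν θ) = ε * (iH ⊤ Z θ₀ θ - iH ⊤ Z θ₀ (st Z t ν θ)))]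
        exact Nat.card_congr (Equiv.subtypeEquivRight fun ψ => hRO ψ ⟨θ₀, hθ₀⟩)
      have h8 : Nat.card {t : nz Z // act t ⟨θ₀, hθ₀⟩ = ⟨θ₀, hθ₀⟩} = Nat.card {h : G // h ∈ nz Z ∧ cjF h θ₀ = θ₀} := by
        refine Nat.card_congr ((Equiv.subtypeEquivRight fun s => ?_).trans
          (Equiv.subtypeSubtypeEquivSubtypeInter (fun h : G => h ∈ nz Z) (fun h => cjF h θ₀ = θ₀)))
        constructor
        · intro h
          have h9 := congrArg Subtype.val h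
          rw [hact] at h9
          exact h9
        · intro h
          refine Subtype.ext ?_
          rw [hact]
          exact h
      rw [h6, h7, h8] at h5
      exact h5
  intro L hL
  rcases hL with hL | hL
  · subst hL
    exact concl _ w₂ D₂ d1 d2 d3 hcT
  · rw [hL]
    exact concl _ w₁ D₁ c1 c2 c3 hcN1

end Pool.Agent.ND.NY.E
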